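import Pool.Agent.SCH.Def

/-!
# Smoothness of the cubic fourfold in characteristic three (helper83)
-/

set_option autoImplicit false

namespace SCH

open MvPolynomial

private theorem core {A : Type} [Field A] (h3 : (3 : A) = 0) {X y z u s t : A}
    (e1 : X * u + z * s = 0) (e2 : X * t - y * s + z * u = 0) (e3 : X * s - y * t = 0)
    (e4 : s * t - u ^ 2 - y ^ 2 = 0) (e5 : s ^ 2 + t ^ 2 + (X - z) * y + z ^ 2 = 0)
    (e6 : u * s + y ^ 2 - y * z = 0) (e0 : cc X y z = 0) :
    X = 0 ∧ y = 0 ∧ z = 0 ∧ u = 0 ∧ s = 0 ∧ t = 0 := by
  unfold cc at e0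
  by_cases hy : y = 0
  · subst hy
    have hXz : X - z = 0 := by
      have : (X - z) ^ 3 = 0 := by linear_combination e0
      exact pow_eq_zero_iff (three_ne_zero) |>.1 this
    have hX : X = z := sub_eq_zero.1 hXz
    subst hX
    by_cases hz : X = 0
    · subst hz
      have hus : u * s = 0 := by linear_combination e6
      have hst : s ^ 2 + t ^ 2 = 0 := by linear_combination e5
      rcases mul_eq_zero.1 hus with hu | hs
      · subst hu
        have h1 : s * t = 0 := by linear_combination e4
        rcases mul_eq_zero.1 h1 with hs | ht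
        · subst hs
          have : t ^ 2 = 0 := by linear_combination hst
          exact ⟨rfl, rfl, rfl, rfl, rfl, pow_eq_zero_iff (two_ne_zero) |>.1 this⟩
        · subst ht
          have : s ^ 2 = 0 := by linear_combination hst
          exact ⟨rfl, rfl, rfl, rfl, pow_eq_zero_iff (two_ne_zero) |>.1 this, rfl⟩
      · subst hs
        have ht : t ^ 2 = 0 := by linear_combination hst
        have hu : u ^ 2 = 0 := by linear_combination -e4
        exact ⟨rfl, rfl, rfl, pow_eq_zero_iff (two_ne_zero) |>.1 hu, rfl,
          pow_eq_zero_iff (two_ne_zero) |>.1 ht⟩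
    · exfalso
      have hs : s = 0 := by
        have : X * s = 0 := by linear_combination e3
        exact (mul_eq_zero.1 this).resolve_left hz
      subst hs
      have hu : u = 0 := by
        have : X * u = 0 := by linear_combination e1
        exact (mul_eq_zero.1 this).resolve_left hz
      subst hu
      have ht : t = 0 := by
        have : X * t = 0 := by linear_combination e2
        exact (mul_eq_zero.1 this).resolve_left hz
      subst ht
      have : X ^ 2 = 0 := by linear_combination e5
      exact hz (pow_eq_zero_iff (two_ne_zero) |>.1 this)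
  · exfalso
    have hs : s ≠ 0 := by
      intro hs
      subst hs
      have ht : t = 0 := by
        have : y * t = 0 := by linear_combination -e3
        exact (mul_eq_zero.1 this).resolve_left hy
      subst ht
      have hyz : y = z := by
        have : y * (y - z) = 0 := by linear_combination e6
        exact sub_eq_zero.1 ((mul_eq_zero.1 this).resolve_left hy)
      subst hyz
      have hu : u = 0 := by
        have : y * u = 0 := by linear_combination e2
        exact (mul_eq_zero.1 this).resolve_left hy
      subst hu
      have : y ^ 2 = 0 := by linear_combination -e4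
      exact hy (pow_eq_zero_iff (two_ne_zero) |>.1 this)
    have hD : X ^ 3 - X * y ^ 2 - y * z ^ 2 = 0 := by
      have : (X ^ 3 - X * y ^ 2 - y * z ^ 2) * s = 0 := by
        linear_combination X ^ 2 * e3 + X * y * e2 - y * z * e1
      exact (mul_eq_zero.1 this).resolve_right hs
    have hz0 : z * (z ^ 2 + y * z - y ^ 2) = 0 := by
      linear_combination hD - e0 + (-(X ^ 2 * z) + X * z ^ 2 + y * z ^ 2) * h3
    rcases mul_eq_zero.1 hz0 with hz | hz
    · subst hz
      have hu : u ≠ 0 := by
        intro hu
        subst hu
        have : y ^ 2 = 0 := by linear_combination e6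
        exact hy (pow_eq_zero_iff (two_ne_zero) |>.1 this)
      have hX : X = 0 := by
        have : X * u = 0 := by linear_combination e1
        exact (mul_eq_zero.1 this).resolve_right hu
      subst hX
      have : y * s = 0 := by linear_combination -e2
      exact (mul_ne_zero hy hs) this
    · have hX : X ≠ 0 := by
        intro hX
        subst hX
        have h1 : y * z ^ 2 = 0 := by linear_combination -hD
        have hz' : z = 0 := by
          rcases mul_eq_zero.1 h1 with h | h
          · exact absurd h hy
          · exact pow_eq_zero_iff (two_ne_zero) |>.1 h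
        subst hz'
        have : y ^ 2 = 0 := by linear_combination -hz
        exact hy (pow_eq_zero_iff (two_ne_zero) |>.1 this)
      have hB : t ^ 2 * y = X ^ 3 := by
        have h1 : X * y ^ 2 * (t ^ 2 * y - X ^ 3) = 0 := by
          linear_combination X ^ 4 * e4 - X ^ 3 * t * e3 + X ^ 2 * (X * u - z * s) * e1
            + z ^ 2 * (X * s + y * t) * e3 - t ^ 2 * y * hD
        exact sub_eq_zero.1 ((mul_eq_zero.1 h1).resolve_left (mul_ne_zero hX (pow_ne_zero 2 hy)))
      have hA : X ^ 3 * (y - 2 * z) * y = 0 := by
        linear_combination X ^ 3 * e6 - X ^ 2 * s * e1 + z * (X * s + y * t) * e3 + z * y * hB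
      have hyz : y - 2 * z = 0 := by
        rcases mul_eq_zero.1 hA with h | h
        · exact (mul_eq_zero.1 h).resolve_left (pow_ne_zero 3 hX)
        · exact absurd h hy
      have hz2 : z ^ 2 = 0 := by
        linear_combination -hz + (z - y - 2 * z) * hyz
      have hz' : z = 0 := pow_eq_zero_iff (two_ne_zero) |>.1 hz2
      subst hz'
      apply hy
      linear_combination hyz

theorem smooth_PP {K A : Type} [Field K] [Field A] [Algebra K A] (h3 : (3 : K) = 0)
    (v : Fin 6 → A) (h0 : aeval v (PP : MvPolynomial (Fin 6) K) = 0)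
    (h1 : ∀ j, aeval v (pderiv j (PP : MvPolynomial (Fin 6) K)) = 0) : v = 0 := by
  have e3 : (3 : A) = 0 := by
    rw [← map_ofNat (algebraMap K A) 3, h3, map_zero]
  have d0 := h1 0
  have d1 := h1 1
  have d2 := h1 2
  have d3 := h1 3
  have d4 := h1 4
  have d5 := h1 5
  rw [aeval_PP, FF, F6] at h0
  simp only [PP, map_add, map_sub, Derivation.leibniz, Derivation.leibniz_pow, pderiv_X,
    smul_eq_mul, map_mul, map_pow, aeval_X, Pi.single_apply,
    nsmul_eq_mul, map_natCast] at d0 d1 d2 d3 d4 d5
  simp at d0 d1 d2 d3 d4 d5
  have g1 : v 0 * v 3 + v 2 * v 4 = 0 := by linear_combination d3 + v 0 * v 3 * e3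
  have g2 : v 0 * v 5 - v 1 * v 4 + v 2 * v 3 = 0 := by linear_combination d4 - v 1 * v 4 * e3
  have g3 : v 0 * v 4 - v 1 * v 5 = 0 := by linear_combination d5 - v 1 * v 5 * e3
  have g0 : cc (v 0) (v 1) (v 2) = 0 := by
    linear_combination h0 + v 3 * d3 + v 4 * d4 + v 5 * d5 -
      (v 0 * (v 4 * v 5 - v 3 ^ 2) + v 1 * (v 4 ^ 2 + v 5 ^ 2) + v 2 * (v 3 * v 4)) * e3
  obtain ⟨r0, r1, r2, r3, r4, r5⟩ := core e3 g1 g2 g3
    (by linear_combination d0 - (v 0 - v 2) ^ 2 * e3)
    (by linear_combination d1 - (-(v 0 - v 2) * v 1) * e3)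
    (by linear_combination d2 - (-(v 0 - v 2) ^ 2 + v 1 * v 2) * e3) g0
  funext i
  fin_cases i
  · exact r0
  · exact r1
  · exact r2
  · exact r3
  · exact r4
  · exact r5

end SCH
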