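import Pool.Agent.SCH.Tot
import Pool.Agent.SCH.Smo
import Pool.Agent.SCF.Fin

/-!
# Supersingularity of the cubic fourfold over the field with three elements (helper83)
-/

set_option autoImplicit false

namespace SCH

open Finset SCT MvPolynomial
open scoped LinearAlgebra.Projectivization

lemma card_div_two (m : ℕ) : ∃ k, 81 ^ m / 2 = 8 * k := by
  have h : 81 ^ m % 16 = 1 := by
    rw [Nat.pow_mod]
    norm_num
  exact ⟨81 ^ m / 16, by omega⟩

theorem supersingular_PP
    (hSum : ∀ (L : Type) [Field L] [Fintype L] [DecidableEq L] [CharP L 3] (m : ℕ), 1 ≤ m →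
      Fintype.card L = 81 ^ m →
      (∑ w : L, ∑ v : L, quadraticChar L ((w ^ 3 + w ^ 2 + 1) ^ 2 - (v ^ 3 - v) ^ 2)) =
        12 * (Fintype.card L : ℤ)) :
    SCF.IsSupersingular (PP : MvPolynomial (Fin (5 + 1)) (ZMod 3)) := by
  classical
  refine ⟨9, ⟨4, by norm_num, ?_⟩, 22, ?_⟩
  · rw [Nat.card_zmod]
    norm_num
  intro m hm L _ _ _ hL
  have : Fintype L := Fintype.ofFinite L
  have hchar : CharP L 3 := charP_of_injective_algebraMap (algebraMap (ZMod 3) L).injective 3
  have h3 : (3 : L) = 0 := by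
    have := CharP.cast_eq_zero L 3
    exact_mod_cast this
  have h2 := two_ne h3
  have hLq : Fintype.card L = 81 ^ m := by
    rw [← Nat.card_eq_fintype_card, hL]
    norm_num
  have hrc := ringChar_ne h2
  have hη : ∀ a : L, a ≠ 0 → a ^ 8 = 1 → quadraticChar L a = 1 := by
    intro a ha h8
    rw [quadraticChar_one_iff_isSquare ha, FiniteField.isSquare_iff hrc ha, hLq]
    obtain ⟨k, hk⟩ := card_div_two m
    rw [hk, pow_mul, h8, one_pow]
  obtain ⟨i, hi⟩ : ∃ i : L, i ^ 2 = -1 := by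
    have h4 : Fintype.card L % 4 ≠ 3 := by
      rw [hLq, Nat.pow_mod]
      norm_num
    obtain ⟨i, hi⟩ := FiniteField.isSquare_neg_one_iff.2 h4
    exact ⟨i, by rw [sq, hi]⟩
  have h1 : quadraticChar L (-1) = 1 := hη _ (neg_ne_zero.2 one_ne_zero) (by ring)
  have hS := (sum_eq h3 h1).trans (hSum L m hm hLq)
  have hcount := card_FF h3 hi hη hS
  have hcastL : (Fintype.card L : ℤ) = ((9 : ℤ) ^ m) ^ 2 := by
    rw [hLq]
    push_cast
    rw [← pow_mul, mul_comm, pow_mul]
    norm_num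
  have hN : (Nat.card {v : Fin 6 → L // FF v = 0} : ℤ) =
      ((Fintype.card L : ℕ) : ℤ) ^ 5 + 22 * ((Fintype.card L : ℕ) - 1) *
        ((9 ^ m : ℕ) : ℤ) ^ 4 := by
    rw [hcount]
    push_cast
    have e1 : (Fintype.card L : ℤ) ^ 2 = ((9 : ℤ) ^ m) ^ 4 := by
      rw [hcastL]; ring
    rw [e1]
  have hfin := SCF.points_of_count rfl (s := 9 ^ m) (k := 2)
    (fun t v => FF_smul t v) hN
  have hset : (SCF.Points (PP : MvPolynomial (Fin (5 + 1)) (ZMod 3)) L).ncard =
      Nat.card {P : ℙ L (Fin 6 → L) // FF P.rep = 0} := by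
    rw [← Nat.card_coe_set_eq]
    refine Nat.card_congr (Equiv.subtypeEquivRight fun P => ?_)
    change aeval P.rep _ = 0 ↔ _
    rw [aeval_PP]
  rw [hset, hfin, Nat.card_eq_fintype_card]
  push_cast
  ring

end SCH
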