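import Pool.Agent.SCH.Conic

/-!
# The number of zeros of the cubic form over the fields with `81^m` elements (helper83)
-/

set_option autoImplicit false

namespace SCH

open Finset SCT

variable {L : Type} [Field L] [Fintype L] [DecidableEq L]

omit [Fintype L] [DecidableEq L] in
/-- the roots of `w³ - w` -/
lemma cube_roots (w : L) :
    w ^ 3 - w = 0 ↔ w = 0 ∨ w = 1 ∨ w = -1 := by
  constructor
  · intro h
    have : w * ((w - 1) * (w + 1)) = 0 := by linear_combination h
    rcases mul_eq_zero.1 this with h | h
    · exact Or.inl h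
    · rcases mul_eq_zero.1 h with h | h
      · exact Or.inr (Or.inl (sub_eq_zero.1 h))
      · exact Or.inr (Or.inr (eq_neg_of_add_eq_zero_left h))
  · rintro (h | h | h) <;> subst h <;> ring

/-- sums over `X³ - X = x₀³ - x₀` -/
lemma sum_three (h3 : (3 : L) = 0) (x0 : L) (f : L → ℤ) :
    (∑ X : L, if X ^ 3 - X = x0 ^ 3 - x0 then f X else 0) = f x0 + f (x0 + 1) + f (x0 - 1) := by
  have h2 := two_ne h3
  have h : ∀ X : L, (if X ^ 3 - X = x0 ^ 3 - x0 then f X else 0) =
      if X ∈ ({x0, x0 + 1, x0 - 1} : Finset L) then f X else 0 := by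
    intro X
    refine if_congr ?_ rfl rfl
    simp only [mem_insert, mem_singleton]
    have e : X ^ 3 - X = x0 ^ 3 - x0 ↔ (X - x0) ^ 3 - (X - x0) = 0 := by
      constructor
      · intro h
        linear_combination h + (-(X ^ 2 * x0) + X * x0 ^ 2) * h3
      · intro h
        linear_combination h - (-(X ^ 2 * x0) + X * x0 ^ 2) * h3
    rw [e, cube_roots]
    constructor
    · rintro (h | h | h)
      · exact Or.inl (sub_eq_zero.1 h)
      · exact Or.inr (Or.inl (by linear_combination h))
      · exact Or.inr (Or.inr (by linear_combination h))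
    · rintro (h | h | h) <;> subst h
      · exact Or.inl (by ring)
      · exact Or.inr (Or.inl (by ring))
      · exact Or.inr (Or.inr (by ring))
  simp_rw [h]
  rw [sum_ite_mem, univ_inter, sum_insert, sum_insert, sum_singleton]
  · ring
  · simp only [mem_singleton]
    intro h
    exact h2 (by linear_combination h)
  · simp only [mem_insert, mem_singleton, not_or]
    constructor
    · intro h
      exact one_ne_zero (α := L) (by linear_combination -h)
    · intro h
      exact one_ne_zero (α := L) (by linear_combination h)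

/-- the character on the points of `D = 0` -/
def kap (X : L) : ℤ := if X = 0 then 1 else quadraticChar L X

lemma kap_of {X : L} (h : X = 0 ∨ quadraticChar L X = 1) : kap X = 1 := by
  unfold kap
  rcases h with h | h
  · rw [if_pos h]
  · rw [h, ite_self]

/-- the conics over the points with `y = 1` -/
lemma T_1 (h3 : (3 : L) = 0) (h1 : quadraticChar L (-1) = 1) (X z : L) :
    T X 1 z = (Fintype.card L : ℤ) ^ 2 +
      (Fintype.card L : ℤ) * quadraticChar L (dd X 1 z * cc X 1 z) +
      ((if dd X 1 z = 0 then kap X else 0) * (-(Fintype.card L : ℤ)) +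
        (if dd X 1 z = 0 ∧ cc X 1 z = 0 then kap X else 0) * (Fintype.card L : ℤ) ^ 2) := by
  by_cases hX : X = 0
  · subst hX
    by_cases hz : z = 0
    · subst hz
      have hd : dd (0 : L) 1 0 = 0 := by unfold dd; ring
      have hc : cc (0 : L) 1 0 = 0 := by unfold cc; ring
      rw [T_010 h3 h1, hd, hc, if_pos rfl, if_pos ⟨rfl, rfl⟩, mul_zero, eta_zero]
      have : kap (0 : L) = 1 := by unfold kap; rw [if_pos rfl]
      rw [this]
      ring
    · have hd : dd (0 : L) 1 z ≠ 0 := by
        intro h
        unfold dd at h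
        have : z ^ 2 = 0 := by linear_combination -h
        exact hz (pow_eq_zero_iff (two_ne_zero) |>.1 this)
      rw [T_01 h3 hz, if_neg hd, if_neg (fun h => hd h.1)]
      ring
  · by_cases hD : dd X 1 z = 0
    · rw [T_X_D0 h3 hX one_ne_zero hD, hD, if_pos rfl, zero_mul, eta_zero, one_mul]
      have : kap X = quadraticChar L X := by unfold kap; rw [if_neg hX]
      rw [this]
      by_cases hc : cc X 1 z = 0
      · rw [if_pos hc, if_pos ⟨rfl, hc⟩]
        ring
      · rw [if_neg hc, if_neg (fun h => hc h.2)]
        ring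
    · rw [T_X_D h3 hX hD, if_neg hD, if_neg (fun h => hD h.1)]
      ring

/-- the elliptic curve and its double cover have the same number of points -/
lemma sum_kap (h3 : (3 : L) = 0) (h1 : quadraticChar L (-1) = 1) :
    (∑ X : L, ∑ z : L, if dd X 1 z = 0 then kap X else 0) = -1 := by
  have h2 := two_ne h3
  have h : ∀ X : L, (∑ z : L, if dd X 1 z = 0 then kap X else 0) =
      (1 + quadraticChar L (X ^ 3 - X)) * kap X := by
    intro X
    rw [← sum_sq h2 (X ^ 3 - X), sum_mul]
    refine sum_congr rfl fun z _ => ?_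
    have : dd X 1 z = 0 ↔ z ^ 2 = X ^ 3 - X := by
      unfold dd
      constructor
      · intro h
        linear_combination -h
      · intro h
        linear_combination -h
    rw [if_congr this rfl rfl]
    split_ifs <;> simp
  simp_rw [h]
  have h' : ∀ X : L, (1 + quadraticChar L (X ^ 3 - X)) * kap X =
      quadraticChar L X + quadraticChar L (-1 + 1 * X ^ 2) := by
    intro X
    unfold kap
    by_cases hX : X = 0
    · subst hX
      rw [if_pos rfl, show (0 : L) ^ 3 - 0 = 0 by ring, eta_zero,
        show (-1 + 1 * (0 : L) ^ 2) = -1 by ring, h1]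
      ring
    · rw [if_neg hX, show X ^ 3 - X = X * (-1 + 1 * X ^ 2) by ring, map_mul]
      have : quadraticChar L X * quadraticChar L X = 1 := by
        rw [← sq, quadraticChar_sq_one hX]
      linear_combination quadraticChar L (-1 + 1 * X ^ 2) * this
  simp_rw [h']
  rw [sum_add_distrib, sum_eta h2, sum_quad h2 one_ne_zero, if_neg (neg_ne_zero.2 one_ne_zero),
    map_one]
  ring

/-- the nine base points -/
lemma sum_nine (h3 : (3 : L) = 0) {i : L} (hi : i ^ 2 = -1)
    (hη : ∀ a : L, a ≠ 0 → a ^ 8 = 1 → quadraticChar L a = 1) :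
    (∑ X : L, ∑ z : L, if dd X 1 z = 0 ∧ cc X 1 z = 0 then kap X else 0) = 9 := by
  have h2 := two_ne h3
  have hi0 : i ≠ 0 := by
    rintro rfl
    apply one_ne_zero (α := L)
    linear_combination hi
  rw [sum_comm]
  have h : ∀ z : L, (∑ X : L, if dd X 1 z = 0 ∧ cc X 1 z = 0 then kap X else 0) =
      if z ∈ ({0, 1 - i, 1 + i} : Finset L) then
        ∑ X : L, (if X ^ 3 - X = z ^ 2 then kap X else 0) else 0 := by
    intro z
    have hz : (∃ X : L, dd X 1 z = 0 ∧ cc X 1 z = 0) → z ∈ ({0, 1 - i, 1 + i} : Finset L) := by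
      rintro ⟨X, hd, hc⟩
      unfold dd at hd
      unfold cc at hc
      have h5 : z * ((z - (1 - i)) * (z - (1 + i))) = 0 := by
        linear_combination hd - hc - z * hi + (-(X ^ 2 * z) + X * z ^ 2 + z) * h3
      simp only [mem_insert, mem_singleton]
      rcases mul_eq_zero.1 h5 with h | h
      · exact Or.inl h
      · rcases mul_eq_zero.1 h with h | h
        · exact Or.inr (Or.inl (sub_eq_zero.1 h))
        · exact Or.inr (Or.inr (sub_eq_zero.1 h))
    split_ifs with hm
    · refine sum_congr rfl fun X _ => if_congr ?_ rfl rfl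
      have h6 : z * ((z - (1 - i)) * (z - (1 + i))) = 0 := by
        simp only [mem_insert, mem_singleton] at hm
        rcases hm with h | h | h
        · rw [h]; ring
        · rw [h]; ring
        · rw [h]; ring
      unfold dd cc
      constructor
      · rintro ⟨hd, -⟩
        linear_combination hd
      · intro hd
        refine ⟨by linear_combination hd, ?_⟩
        linear_combination hd - h6 - z * hi + (-(X ^ 2 * z) + X * z ^ 2 + z) * h3
    · refine sum_eq_zero fun X _ => ?_
      rw [if_neg]
      intro h
      exact hm (hz ⟨X, h⟩)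
  simp_rw [h]
  have hS : ∀ x0 a : L, x0 ^ 3 - x0 = a → (x0 = 0 ∨ quadraticChar L x0 = 1) →
      quadraticChar L (x0 + 1) = 1 → quadraticChar L (x0 - 1) = 1 →
      (∑ X : L, (if X ^ 3 - X = a then kap X else 0)) = 3 := by
    intro x0 a ha k0 k1 k2
    rw [← ha, sum_three h3, kap_of k0, kap_of (Or.inr k1), kap_of (Or.inr k2)]
    norm_num
  have hne : ∀ a : L, a ^ 8 = 1 → a ≠ 0 := by
    rintro a ha rfl
    rw [zero_pow (by norm_num)] at ha
    exact one_ne_zero ha.symm
  have hη' : ∀ a : L, a ^ 8 = 1 → quadraticChar L a = 1 := fun a ha => hη a (hne a ha) ha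
  have hp : ∀ a : L, a ^ 2 = i ∨ a ^ 2 = -i → a ^ 8 = 1 := by
    intro a ha
    have : a ^ 4 = -1 := by
      rcases ha with h | h
      · rw [show a ^ 4 = (a ^ 2) ^ 2 by ring, h, hi]
      · rw [show a ^ 4 = (a ^ 2) ^ 2 by ring, h, neg_sq, hi]
    rw [show a ^ 8 = (a ^ 4) ^ 2 by ring, this]
    ring
  have s0 : (∑ X : L, (if X ^ 3 - X = (0 : L) ^ 2 then kap X else 0)) = 3 := by
    refine hS 0 _ (by ring) (Or.inl rfl) ?_ ?_
    · rw [zero_add, map_one]
    · exact hη' _ (by ring)
  have i8 : i ^ 8 = 1 := by
    rw [show i ^ 8 = (i ^ 2) ^ 4 by ring, hi]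
    ring
  have s1 : (∑ X : L, (if X ^ 3 - X = (1 - i) ^ 2 then kap X else 0)) = 3 := by
    refine hS i _ ?_ (Or.inr (hη' _ i8)) ?_ ?_
    · linear_combination (i - 1) * hi + 0 * h3
    · exact hη' _ (hp _ (Or.inr (by linear_combination hi + i * h3)))
    · exact hη' _ (hp _ (Or.inl (by linear_combination hi - i * h3)))
  have s2 : (∑ X : L, (if X ^ 3 - X = (1 + i) ^ 2 then kap X else 0)) = 3 := by
    refine hS (-i) _ ?_ (Or.inr (hη' _ (by rw [Even.neg_pow (by decide), i8]))) ?_ ?_
    · linear_combination (-i - 1) * hi + 0 * h3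
    · exact hη' _ (hp _ (Or.inl (by linear_combination hi - i * h3)))
    · exact hη' _ (hp _ (Or.inr (by linear_combination hi + i * h3)))
  rw [sum_ite_mem, univ_inter, sum_insert, sum_insert, sum_singleton, s0, s1, s2]
  · norm_num
  · simp only [mem_singleton]
    intro h
    have : (2 : L) * i = 0 := by linear_combination -h
    exact (mul_ne_zero h2 hi0) this
  · simp only [mem_insert, mem_singleton, not_or]
    constructor
    · intro h
      have h5 : i = 1 := by linear_combination h
      rw [h5] at hi
      exact h2 (by linear_combination hi)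
    · intro h
      have h5 : i = -1 := by linear_combination -h
      rw [h5] at hi
      exact h2 (by linear_combination hi)

end SCH
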