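import Pool.Agent.SCH.Def
import Pool.Agent.SCT.CountA

/-!
# The conic bundle count (helper83)

`T X y z` is the number of `(u, s, t)` with `F = 0`.
-/

set_option autoImplicit false

namespace SCH

open Finset SCT

variable {L : Type} [Field L] [Fintype L] [DecidableEq L]

/-- the number of `(u, s, t)` with `F = 0` -/
def T (X y z : L) : ℤ :=
  ∑ u : L, ∑ s : L, ∑ t : L, if F6 X y z u s t = 0 then (1 : ℤ) else 0

omit [Fintype L] [DecidableEq L] in
lemma two_ne (h3 : (3 : L) = 0) : (2 : L) ≠ 0 := by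
  intro h
  have : (1 : L) = 0 := by linear_combination h3 - h
  exact one_ne_zero this

lemma nn_nondeg (h2 : (2 : L) ≠ 0) {A B C : L} (h : C ^ 2 - 4 * (A * B) ≠ 0) (m : L) :
    nn A B C m = (Fintype.card L : ℤ) - quadraticChar L (C ^ 2 - 4 * (A * B))
      + (if m = 0 then (Fintype.card L : ℤ) else 0) * quadraticChar L (C ^ 2 - 4 * (A * B)) := by
  by_cases hA : A = 0
  · by_cases hB : B = 0
    · subst hA hB
      have hC : C ≠ 0 := by
        rintro rfl
        apply h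
        ring
      have e : C ^ 2 - 4 * ((0 : L) * 0) = C ^ 2 * 1 := by ring
      rw [nn_of_mid hC, e, eta_sq hC, map_one]
      ring
    · rw [nn_of_right h2 hB, if_neg h]
      ring
  · rw [nn_of_left h2 hA, if_neg h]
    ring

lemma sum_conic (h2 : (2 : L) ≠ 0) {X c : L} (hX : X ≠ 0) (r : ℤ) :
    (∑ u : L, (if X * u ^ 2 - c = 0 then r else 0)) = r * (1 + quadraticChar L (c * X)) := by
  have h : ∀ u : L, (if X * u ^ 2 - c = 0 then r else 0) =
      r * (if u ^ 2 = c / X then (1 : ℤ) else 0) := by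
    intro u
    have : X * u ^ 2 - c = 0 ↔ u ^ 2 = c / X := by
      rw [sub_eq_zero, eq_div_iff hX, mul_comm]
    rw [if_congr this rfl rfl]
    split_ifs <;> simp
  simp_rw [h]
  rw [← mul_sum, sum_sq h2]
  congr 2
  have e : c * X = X ^ 2 * (c / X) := by field_simp
  rw [e, eta_sq hX]

lemma T_eq_X (h3 : (3 : L) = 0) {X : L} (hX : X ≠ 0) (y z : L) :
    T X y z = ∑ u : L, nn (y + z ^ 2 / X) y X (X * u ^ 2 - cc X y z) := by
  have h1 : T X y z = ∑ s : L, ∑ t : L, ∑ u : L, if F6 X y z u s t = 0 then (1 : ℤ) else 0 := by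
    unfold T
    rw [sum_comm]
    refine sum_congr rfl fun s _ => ?_
    rw [sum_comm]
  have h2 : (∑ u : L, nn (y + z ^ 2 / X) y X (X * u ^ 2 - cc X y z)) =
      ∑ s : L, ∑ t : L, ∑ u : L,
        if (y + z ^ 2 / X) * s ^ 2 + y * t ^ 2 + X * (s * t) = X * u ^ 2 - cc X y z
          then (1 : ℤ) else 0 := by
    unfold nn
    rw [sum_comm]
    refine sum_congr rfl fun s _ => ?_
    rw [sum_comm]
  rw [h1, h2]
  refine sum_congr rfl fun s _ => sum_congr rfl fun t _ => ?_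
  rw [← sum_lin (one_ne_zero) (-(z * s / X))
    (fun u => if F6 X y z u s t = 0 then (1 : ℤ) else 0)]
  refine sum_congr rfl fun u _ => if_congr ?_ rfl rfl
  have key : F6 X y z (1 * u + -(z * s / X)) s t =
      (y + z ^ 2 / X) * s ^ 2 + y * t ^ 2 + X * (s * t) - (X * u ^ 2 - cc X y z) := by
    unfold F6
    field_simp
    linear_combination (z * s * (X * u) - z ^ 2 * s ^ 2) * h3
  rw [key, sub_eq_zero]

lemma T_X_D (h3 : (3 : L) = 0) {X : L} (hX : X ≠ 0) {y z : L} (hD : dd X y z ≠ 0) :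
    T X y z = (Fintype.card L : ℤ) ^ 2 +
      (Fintype.card L : ℤ) * quadraticChar L (dd X y z * cc X y z) := by
  have h2 := two_ne h3
  set Δ : L := X ^ 2 - 4 * ((y + z ^ 2 / X) * y) with hΔ
  have hXΔ : X * Δ = dd X y z := by
    rw [hΔ, dd]
    field_simp
    linear_combination (-(X * y ^ 2) - y * z ^ 2) * h3
  have hΔ0 : Δ ≠ 0 := by
    intro h
    apply hD
    rw [← hXΔ, h, mul_zero]
  have hη : quadraticChar L Δ = quadraticChar L (X * dd X y z) := by
    rw [← hXΔ, ← mul_assoc, ← sq, eta_sq hX]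
  rw [T_eq_X h3 hX]
  simp_rw [nn_nondeg h2 hΔ0]
  rw [sum_add_distrib, ← sum_mul, sum_conic h2 hX, sum_const, card_univ, nsmul_eq_mul]
  rw [← hΔ, hη]
  have e : quadraticChar L (X * dd X y z) * quadraticChar L (cc X y z * X) =
      quadraticChar L (dd X y z * cc X y z) := by
    rw [← map_mul, show X * dd X y z * (cc X y z * X) = X ^ 2 * (dd X y z * cc X y z) by ring,
      eta_sq hX]
  linear_combination (Fintype.card L : ℤ) * e

lemma T_X_D0 (h3 : (3 : L) = 0) {X : L} (hX : X ≠ 0) {y z : L} (hy : y ≠ 0)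
    (hD : dd X y z = 0) :
    T X y z = (Fintype.card L : ℤ) ^ 2 - (Fintype.card L : ℤ) * quadraticChar L (y * X) +
      (if cc X y z = 0 then (Fintype.card L : ℤ) ^ 2 else 0) * quadraticChar L (y * X) := by
  have h2 := two_ne h3
  set Δ : L := X ^ 2 - 4 * ((y + z ^ 2 / X) * y) with hΔ
  have hXΔ : X * Δ = dd X y z := by
    rw [hΔ, dd]
    field_simp
    linear_combination (-(X * y ^ 2) - y * z ^ 2) * h3
  have hΔ0 : Δ = 0 := by
    rw [hD] at hXΔ
    exact (mul_eq_zero.1 hXΔ).resolve_left hX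
  rw [T_eq_X h3 hX]
  have h : ∀ u : L, nn (y + z ^ 2 / X) y X (X * u ^ 2 - cc X y z) =
      (Fintype.card L : ℤ) + (Fintype.card L : ℤ) *
        quadraticChar L (-(y * cc X y z) + (y * X) * u ^ 2) := by
    intro u
    rw [nn_of_right h2 hy, ← hΔ, hΔ0, if_pos rfl, eta_zero]
    rw [show y * (X * u ^ 2 - cc X y z) = -(y * cc X y z) + (y * X) * u ^ 2 by ring]
    ring
  simp_rw [h]
  rw [sum_add_distrib, ← mul_sum, sum_quad h2 (mul_ne_zero hy hX), sum_const, card_univ,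
    nsmul_eq_mul]
  have e : (-(y * cc X y z) = 0) ↔ cc X y z = 0 := by
    rw [neg_eq_zero, mul_eq_zero]
    exact or_iff_right hy
  rw [if_congr e rfl rfl]
  split_ifs <;> ring

lemma T_eq_0 (y z : L) : T 0 y z = ∑ t : L, nn y 0 z (-cc 0 y z - y * t ^ 2) := by
  have h1 : T 0 y z = ∑ t : L, ∑ s : L, ∑ u : L, if F6 0 y z u s t = 0 then (1 : ℤ) else 0 := by
    unfold T
    rw [sum_comm]
    have : ∀ s : L, (∑ u : L, ∑ t : L, if F6 0 y z u s t = 0 then (1 : ℤ) else 0) =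
        ∑ t : L, ∑ u : L, if F6 0 y z u s t = 0 then (1 : ℤ) else 0 := fun s => sum_comm
    simp_rw [this]
    rw [sum_comm]
  rw [h1]
  refine sum_congr rfl fun t _ => ?_
  unfold nn
  refine sum_congr rfl fun s _ => sum_congr rfl fun u _ => if_congr ?_ rfl rfl
  have key : F6 0 y z u s t = y * s ^ 2 + 0 * u ^ 2 + z * (s * u) - (-cc 0 y z - y * t ^ 2) := by
    unfold F6
    ring
  rw [key, sub_eq_zero]

/-- `X = 0`, `y = 1` -/
lemma T_01 (h3 : (3 : L) = 0) {z : L} (hz : z ≠ 0) :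
    T 0 1 z = (Fintype.card L : ℤ) ^ 2 +
      (Fintype.card L : ℤ) * quadraticChar L (dd 0 1 z * cc 0 1 z) := by
  have h2 := two_ne h3
  rw [T_eq_0]
  have hd : z ^ 2 - 4 * ((1 : L) * 0) ≠ 0 := by
    rw [mul_zero, mul_zero, sub_zero]
    exact pow_ne_zero 2 hz
  have e : z ^ 2 - 4 * ((1 : L) * 0) = z ^ 2 * 1 := by ring
  simp_rw [nn_nondeg h2 hd]
  rw [e, eta_sq hz, map_one]
  simp_rw [mul_one]
  rw [sum_add_distrib, sum_const, card_univ, nsmul_eq_mul]
  have h : ∀ t : L, (if -cc 0 1 z - 1 * t ^ 2 = 0 then (Fintype.card L : ℤ) else 0) =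
      if 1 * t ^ 2 - (-cc 0 1 z) = 0 then (Fintype.card L : ℤ) else 0 := by
    intro t
    refine if_congr ?_ rfl rfl
    constructor
    · intro h
      linear_combination -h
    · intro h
      linear_combination -h
  simp_rw [h]
  rw [sum_conic h2 one_ne_zero]
  have e2 : quadraticChar L (-cc 0 1 z * 1) = quadraticChar L (dd 0 1 z * cc 0 1 z) := by
    rw [show dd 0 1 z * cc 0 1 z = z ^ 2 * (-cc 0 1 z * 1) by unfold dd; ring, eta_sq hz]
  rw [e2]
  ring

lemma T_010 (h3 : (3 : L) = 0) (h1 : quadraticChar L (-1) = 1) :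
    T (0 : L) 1 0 = 2 * (Fintype.card L : ℤ) ^ 2 - (Fintype.card L : ℤ) := by
  have h2 := two_ne h3
  rw [T_eq_0]
  have hc : cc (0 : L) 1 0 = 0 := by unfold cc; ring
  have h : ∀ t : L, nn 1 0 0 (-cc 0 1 0 - 1 * t ^ 2) =
      (Fintype.card L : ℤ) + (Fintype.card L : ℤ) * (if t = 0 then 0 else 1) := by
    intro t
    have e : (0 : L) ^ 2 - 4 * (1 * 0) = 0 := by ring
    rw [nn_of_left h2 one_ne_zero, e, if_pos rfl, eta_zero, hc]
    by_cases ht : t = 0
    · subst ht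
      rw [if_pos rfl]
      have : (1 : L) * (-0 - 1 * 0 ^ 2) = 0 := by ring
      rw [this, eta_zero]
      ring
    · rw [if_neg ht]
      have : (1 : L) * (-0 - 1 * t ^ 2) = t ^ 2 * (-1) := by ring
      rw [this, eta_sq ht, h1]
      ring
  simp_rw [h]
  rw [sum_add_distrib, ← mul_sum, sum_const, card_univ, nsmul_eq_mul]
  have : (∑ t : L, if t = 0 then (0 : ℤ) else 1) = (Fintype.card L : ℤ) - 1 := by
    have h5 : ∀ t : L, (if t = 0 then (0 : ℤ) else 1) = 1 - (if t = 0 then 1 else 0) := by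
      intro t
      split_ifs <;> rfl
    simp_rw [h5]
    rw [sum_sub_distrib, sum_const, card_univ, nsmul_eq_mul, sum_ite_eq' univ (0 : L)]
    simp
  rw [this]
  ring

/-- `X = y = 0` -/
lemma T_00 (h3 : (3 : L) = 0) {z : L} (hz : z ≠ 0) :
    T 0 0 z = (Fintype.card L : ℤ) ^ 2 - (Fintype.card L : ℤ) := by
  have h2 := two_ne h3
  rw [T_eq_0]
  have hd : z ^ 2 - 4 * ((0 : L) * 0) ≠ 0 := by
    rw [mul_zero, mul_zero, sub_zero]
    exact pow_ne_zero 2 hz
  have e : z ^ 2 - 4 * ((0 : L) * 0) = z ^ 2 * 1 := by ring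
  have hc : ∀ t : L, -cc 0 0 z - 0 * t ^ 2 ≠ 0 := by
    intro t h
    have : z ^ 3 = 0 := by
      unfold cc at h
      linear_combination h
    exact hz (pow_eq_zero_iff (three_ne_zero) |>.1 this)
  simp_rw [nn_nondeg h2 hd]
  rw [e, eta_sq hz, map_one]
  simp_rw [if_neg (hc _)]
  rw [sum_const, card_univ, nsmul_eq_mul]
  ring

lemma T_000 : T (0 : L) 0 0 = (Fintype.card L : ℤ) ^ 3 := by
  rw [T_eq_0]
  have h : ∀ t : L, nn (0 : L) 0 0 (-cc 0 0 0 - 0 * t ^ 2) = (Fintype.card L : ℤ) ^ 2 := by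
    intro t
    have : -cc (0 : L) 0 0 - 0 * t ^ 2 = 0 := by unfold cc; ring
    rw [this, nn_zero]
  simp_rw [h]
  rw [sum_const, card_univ, nsmul_eq_mul]
  ring

/-- scaling -/
lemma T_scale {y : L} (hy : y ≠ 0) (X z : L) : T (y * X) y (y * z) = T X 1 z := by
  unfold T
  rw [← sum_lin hy 0]
  refine sum_congr rfl fun u _ => ?_
  rw [← sum_lin hy 0]
  refine sum_congr rfl fun s _ => ?_
  rw [← sum_lin hy 0]
  refine sum_congr rfl fun t _ => if_congr ?_ rfl rfl
  have key : F6 (y * X) y (y * z) (y * u + 0) (y * s + 0) (y * t + 0) =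
      y ^ 3 * F6 X 1 z u s t := by
    unfold F6 cc
    ring
  rw [key, mul_eq_zero]
  exact or_iff_right (pow_ne_zero 3 hy)

end SCH
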