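import Mathlib

/-!
# A cubic fourfold over the field with three elements (helper83, helper29)

`F = X (s t - u²) + y (s² + t²) + z u s + c`, `c = (X - z)³ - (X - z) y² + y z²`, with
`X, y, z, u, s, t` the variables `0, ..., 5`.  The hypersurface contains the plane `X = y = z = 0`;
the discriminant of the net of conics is `D = X³ - X y² - y z²`, and with `x = X + z`,
`g = x³ - x y²`, `h = z³ + y z² - y² z` one has `D = g - h`, `c = g + h`.
For a field `L` with `q = 81^m` elements, `∑ η(D c) = 12 q (q - 1)` (additive characters) and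
`#{F = 0} = q⁵ + 22 q² (q - 1)`.
-/

set_option autoImplicit false

namespace SCH

open MvPolynomial

section

variable {L : Type*} [CommRing L]

/-- the cubic plane curve `c`, as a function -/
def cc (X y z : L) : L := (X - z) ^ 3 - (X - z) * y ^ 2 + y * z ^ 2

/-- the discriminant curve `D`, as a function -/
def dd (X y z : L) : L := X ^ 3 - X * y ^ 2 - y * z ^ 2

/-- the cubic form in six variables, as a function of six arguments -/
def F6 (X y z u s t : L) : L :=
  X * (s * t - u ^ 2) + y * (s ^ 2 + t ^ 2) + z * (u * s) + cc X y z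

/-- the cubic form in six variables, as a function -/
def FF (v : Fin 6 → L) : L := F6 (v 0) (v 1) (v 2) (v 3) (v 4) (v 5)

/-- the cubic form in six variables -/
noncomputable def PP : MvPolynomial (Fin 6) L :=
  X 0 * (X 4 * X 5 - X 3 ^ 2) + X 1 * (X 4 ^ 2 + X 5 ^ 2) + X 2 * (X 3 * X 4)
    + ((X 0 - X 2) ^ 3 - (X 0 - X 2) * X 1 ^ 2 + X 1 * X 2 ^ 2)

theorem aeval_PP {A : Type*} [CommRing A] [Algebra L A] (v : Fin 6 → A) :
    aeval v (PP : MvPolynomial (Fin 6) L) = FF v := by
  simp only [PP, FF, F6, cc, map_add, map_sub, map_mul, map_pow, aeval_X]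

theorem FF_smul (a : L) (v : Fin 6 → L) : FF (a • v) = a ^ (2 + 1) * FF v := by
  simp only [FF, F6, cc, Pi.smul_apply, smul_eq_mul]
  ring

theorem homog_PP : (PP : MvPolynomial (Fin 6) L).IsHomogeneous 3 := by
  have h1 : ∀ i : Fin 6, (X i : MvPolynomial (Fin 6) L).IsHomogeneous 1 := fun i =>
    isHomogeneous_X _ _
  have h2 : ∀ i j : Fin 6, (X i * X j : MvPolynomial (Fin 6) L).IsHomogeneous 2 := fun i j =>
    (h1 i).mul (h1 j)
  have hp2 : ∀ i : Fin 6, (X i ^ 2 : MvPolynomial (Fin 6) L).IsHomogeneous 2 := fun i =>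
    (h1 i).pow 2
  have hd : (X 0 - X 2 : MvPolynomial (Fin 6) L).IsHomogeneous 1 := (h1 0).sub (h1 2)
  unfold PP
  refine IsHomogeneous.add (IsHomogeneous.add (IsHomogeneous.add ?_ ?_) ?_) (IsHomogeneous.add (IsHomogeneous.sub ?_ ?_) ?_)
  · exact (h1 0).mul ((h2 4 5).sub (hp2 3))
  · exact (h1 1).mul ((hp2 4).add (hp2 5))
  · exact (h1 2).mul (h2 3 4)
  · exact hd.pow 3
  · exact hd.mul (hp2 1)
  · exact (h1 1).mul (hp2 2)

theorem PP_ne_zero [Nontrivial L] : (PP : MvPolynomial (Fin 6) L) ≠ 0 := by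
  intro h
  have h1 := congrArg (eval (fun i : Fin 6 => if i = 0 then (1 : L) else 0)) h
  simp [PP] at h1

end

end SCH
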