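import Pool.Agent.SCH.Cnt

/-!
# The total count (helper83)
-/

set_option autoImplicit false

namespace SCH

open Finset SCT

variable {L : Type} [Field L] [Fintype L] [DecidableEq L]

lemma sum_T1 (h3 : (3 : L) = 0) {i : L} (hi : i ^ 2 = -1)
    (hη : ∀ a : L, a ≠ 0 → a ^ 8 = 1 → quadraticChar L a = 1) :
    (∑ X : L, ∑ z : L, T X 1 z) = (Fintype.card L : ℤ) ^ 4 +
      (Fintype.card L : ℤ) * (∑ X : L, ∑ z : L, quadraticChar L (dd X 1 z * cc X 1 z)) +
        (Fintype.card L : ℤ) + 9 * (Fintype.card L : ℤ) ^ 2 := by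
  have h1 : quadraticChar L (-1) = 1 := hη _ (neg_ne_zero.2 one_ne_zero) (by ring)
  simp_rw [T_1 h3 h1]
  simp_rw [sum_add_distrib, ← sum_mul, ← mul_sum]
  rw [sum_kap h3 h1, sum_nine h3 hi hη]
  simp_rw [sum_const, card_univ, nsmul_eq_mul]
  ring

lemma sum_T0 (h3 : (3 : L) = 0) :
    (∑ X : L, ∑ z : L, T X 0 z) = (Fintype.card L : ℤ) ^ 4 +
      (Fintype.card L : ℤ) * ((Fintype.card L : ℤ) - 1) ^ 2 := by
  have h2 := two_ne h3
  have hX : ∀ X : L, (∑ z : L, T X 0 z) = (Fintype.card L : ℤ) ^ 3 +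
      (if X = 0 then (Fintype.card L : ℤ) * ((Fintype.card L : ℤ) - 1) ^ 2 else 0) := by
    intro X
    by_cases hX : X = 0
    · subst hX
      rw [if_pos rfl]
      have h : ∀ z : L, T 0 0 z = (Fintype.card L : ℤ) ^ 2 - (Fintype.card L : ℤ) +
          (if z = 0 then (Fintype.card L : ℤ) ^ 3 - ((Fintype.card L : ℤ) ^ 2 -
            (Fintype.card L : ℤ)) else 0) := by
        intro z
        by_cases hz : z = 0
        · subst hz
          rw [T_000, if_pos rfl]
          ring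
        · rw [T_00 h3 hz, if_neg hz]
          ring
      simp_rw [h]
      rw [sum_add_distrib, sum_ite_eq' univ (0 : L), if_pos (mem_univ _), sum_const, card_univ,
        nsmul_eq_mul]
      ring
    · rw [if_neg hX]
      have h : ∀ z : L, T X 0 z = (Fintype.card L : ℤ) ^ 2 +
          (Fintype.card L : ℤ) * (quadraticChar L X * quadraticChar L (-1 * z + X)) := by
        intro z
        have hD : dd X 0 z ≠ 0 := by
          unfold dd
          intro h
          have : X ^ 3 = 0 := by linear_combination h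
          exact hX (pow_eq_zero_iff (three_ne_zero) |>.1 this)
        rw [T_X_D h3 hX hD, ← map_mul]
        congr 2
        unfold dd cc
        by_cases hz : X - z = 0
        · rw [hz]
          have e : -1 * z + X = 0 := by linear_combination hz
          rw [e]
          congr 1
          ring
        · have e : (X ^ 3 - X * 0 ^ 2 - 0 * z ^ 2) * ((X - z) ^ 3 - (X - z) * 0 ^ 2 + 0 * z ^ 2) =
              (X * (X - z)) ^ 2 * (X * (-1 * z + X)) := by ring
          rw [e, eta_sq (mul_ne_zero hX hz)]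
      simp_rw [h]
      rw [sum_add_distrib, ← mul_sum, ← mul_sum,
        sum_lin (neg_ne_zero.2 one_ne_zero) X (fun t => quadraticChar L t), sum_eta h2, sum_const,
        card_univ, nsmul_eq_mul]
      ring
  simp_rw [hX]
  rw [sum_add_distrib, sum_ite_eq' univ (0 : L), if_pos (mem_univ _), sum_const, card_univ,
    nsmul_eq_mul]
  ring

omit [DecidableEq L] in
lemma card_FF_eq [DecidableEq L] :
    (Nat.card {v : Fin 6 → L // FF v = 0} : ℤ) = ∑ y : L, ∑ X : L, ∑ z : L, T X y z := by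
  classical
  let e : (L × L × L × L × L × L) ≃ (Fin 6 → L) :=
    { toFun := fun p => ![p.2.1, p.1, p.2.2.1, p.2.2.2.1, p.2.2.2.2.1, p.2.2.2.2.2]
      invFun := fun v => (v 1, v 0, v 2, v 3, v 4, v 5)
      left_inv := fun p => rfl
      right_inv := fun v => by
        funext j
        fin_cases j <;> rfl }
  have h1 : (Nat.card {v : Fin 6 → L // FF v = 0} : ℤ) =
      ∑ v : Fin 6 → L, if FF v = 0 then (1 : ℤ) else 0 := by
    rw [Nat.card_eq_fintype_card, Fintype.card_subtype, sum_boole]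
  rw [h1, ← Fintype.sum_equiv e (fun p => if FF (e p) = 0 then (1 : ℤ) else 0) _ (fun p => rfl)]
  simp_rw [Fintype.sum_prod_type]
  rfl

/-- the total count, in terms of the character sum -/
theorem card_FF (h3 : (3 : L) = 0) {i : L} (hi : i ^ 2 = -1)
    (hη : ∀ a : L, a ≠ 0 → a ^ 8 = 1 → quadraticChar L a = 1)
    (hS : (∑ X : L, ∑ z : L, quadraticChar L (dd X 1 z * cc X 1 z)) =
      12 * (Fintype.card L : ℤ)) :
    (Nat.card {v : Fin 6 → L // FF v = 0} : ℤ) = (Fintype.card L : ℤ) ^ 5 +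
      22 * ((Fintype.card L : ℤ) - 1) * (Fintype.card L : ℤ) ^ 2 := by
  rw [card_FF_eq]
  have hy : ∀ y : L, (∑ X : L, ∑ z : L, T X y z) =
      (∑ X : L, ∑ z : L, T X 1 z) + (if y = 0 then (∑ X : L, ∑ z : L, T X 0 z) -
        (∑ X : L, ∑ z : L, T X 1 z) else 0) := by
    intro y
    by_cases hy : y = 0
    · subst hy
      rw [if_pos rfl]
      ring
    · rw [if_neg hy, add_zero, ← sum_lin hy 0]
      refine sum_congr rfl fun X _ => ?_
      rw [← sum_lin hy 0]
      refine sum_congr rfl fun z _ => ?_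
      rw [add_zero, add_zero, T_scale hy]
  rw [sum_congr rfl fun y _ => hy y]
  rw [sum_add_distrib, sum_ite_eq' univ (0 : L), if_pos (mem_univ _), sum_const, card_univ,
    nsmul_eq_mul, sum_T1 h3 hi hη, sum_T0 h3, hS]
  ring

/-- the character sum in the form of module Sum -/
lemma sum_eq (h3 : (3 : L) = 0) (h1 : quadraticChar L (-1) = 1) :
    (∑ X : L, ∑ z : L, quadraticChar L (dd X 1 z * cc X 1 z)) =
      ∑ w : L, ∑ v : L, quadraticChar L ((w ^ 3 + w ^ 2 + 1) ^ 2 - (v ^ 3 - v) ^ 2) := by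
  rw [sum_comm, ← sum_lin (one_ne_zero) (-1)]
  refine sum_congr rfl fun w _ => ?_
  rw [← sum_lin (one_ne_zero) (-w + 1)]
  refine sum_congr rfl fun v _ => ?_
  have e : dd (1 * v + (-w + 1)) 1 (1 * w + -1) * cc (1 * v + (-w + 1)) 1 (1 * w + -1) =
      -1 * ((w ^ 3 + w ^ 2 + 1) ^ 2 - (v ^ 3 - v) ^ 2) := by
    have e1 : dd (1 * v + (-w + 1)) 1 (1 * w + -1) = (v ^ 3 - v) - (w ^ 3 + w ^ 2 + 1) := by
      unfold dd
      linear_combination (w ^ 2 + v * (w - 1) ^ 2 - v ^ 2 * (w - 1)) * h3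
    have e2 : cc (1 * v + (-w + 1)) 1 (1 * w + -1) = (v ^ 3 - v) + (w ^ 3 + w ^ 2 + 1) := by
      unfold cc
      linear_combination (-w ^ 2 - 2 * v ^ 2 * (w - 1) + 4 * v * (w - 1) ^ 2 - 3 * (w - 1) ^ 3
        + (w - 1)) * h3
    rw [e1, e2]
    ring
  rw [e, map_mul, h1, one_mul]

end SCH
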